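import Pool.Agent.H15.JD.Ci

/-! Chains of primes `p_1, ..., p_k` with `a_j p_{j-1} < p_j < a_j (p_{j-1} + 1)`, `p_0 = m`, for multipliers `a_j` of
polylogarithmic size: for almost all tuples of multipliers on average over any dense set of the starting points `m`. -/

set_option autoImplicit false

namespace Pool.Agent.Results.MP_3998cf_nt.ChainsOfPrimes
open Finset

/-- The sum of `∏_j log p_j` over the chains of primes `p_1, ..., p_k` which start at `p_0 = m` and have the multipliers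
`a`, that is `⌊p_j / a_j⌋ = p_{j-1}` for all `j`. A chain is given by its last member `n`: its members are the integer parts
`⌊n / (a_{j+1} ... a_k)⌋`; that it starts at `m` means `m ∏ a_i ≤ n < (m + 1) ∏ a_i`. -/
noncomputable def chains {k : ℕ} (a : Fin k → ℕ) (m : ℕ) : ℝ :=
  ∑ n ∈ Finset.Ico ((∏ j, a j) * m) ((∏ j, a j) * (m + 1)),
    ∏ j, if (n / ∏ i ∈ Finset.Ioi j, a i).Prime then Real.log ((n / ∏ i ∈ Finset.Ioi j, a i : ℕ) : ℝ) else 0

/-- For all `k` and `B` there are `C` and `N₀` with the following property. Let `N ≥ N₀`, let `(log N)^C ≤ P_j ≤ N^B`, let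
`A_j` be any set of at least `P_j / (log N)^B` primes in `(P_j / 2, P_j]`, `j ≤ k`, let `S` be any set of integers in
`[N, 2 N)` and `w` any real weight with `|w| ≤ 1` on `S`. Then all but a proportion `1 / (log N)^B` of the tuples `a` in
`A_1 × ... × A_k` satisfy
`∑_{m ∈ S} w(m) chains(a, m) = (∏_j a_j) (∑_{m ∈ S} w(m) + θ N / (log N)^B)` with `|θ| ≤ 1`. -/
theorem result (k B : ℕ) : ∃ (C : ℕ) (N₀ : ℝ),
    ∀ (N : ℕ) (P : Fin k → ℝ) (A : Fin k → Finset ℕ) (S : Finset ℕ) (w : ℕ → ℝ), N₀ ≤ N →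
    (∀ j, Real.log N ^ C ≤ P j) → (∀ j, P j ≤ (N : ℝ) ^ B) →
    (∀ j, ∀ a ∈ A j, a.Prime ∧ P j / 2 < a ∧ (a : ℝ) ≤ P j) → (∀ j, P j / Real.log N ^ B ≤ (A j).card) →
    (∀ m ∈ S, N ≤ m ∧ m < 2 * N) → (∀ m ∈ S, |w m| ≤ 1) →
    ∃ E : Finset (Fin k → ℕ), E ⊆ Fintype.piFinset A ∧
      (E.card : ℝ) ≤ (∏ j, ((A j).card : ℝ)) / Real.log N ^ B ∧
      ∀ a ∈ Fintype.piFinset A, a ∉ E →
        |∑ m ∈ S, w m * chains a m - (∏ j, (a j : ℝ)) * ∑ m ∈ S, w m| ≤
          (∏ j, (a j : ℝ)) * (N / Real.log N ^ B) := by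
  obtain ⟨C, N₀, h⟩ := Pool.Agent.H15.JD.chain_both k B
  exact ⟨C, N₀, fun N P A S w hN h1 h2 h3 h4 hS hw => (h N P A hN h1 h2 h3 h4).1 S w hS hw⟩

end Pool.Agent.Results.MP_3998cf_nt.ChainsOfPrimes
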